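import Mathlib
import Pool.Agent.Lib.helper6.Dist

set_option autoImplicit false

namespace Pool.Agent.Results.MP_06b6d5_co.Doob

/-- a graph is a core if each of its endomorphisms is an automorphism -/
def IsCore {V : Type} (X : SimpleGraph V) : Prop :=
  ∀ f : X →g X, ∃ e : X ≃g X, ∀ v, e v = f v

/-- the subgraph induced on `S` is a core of `X`: it is a core and `X` maps homomorphically
to it -/
def IsCoreOf {V : Type} (X : SimpleGraph V) (S : Set V) : Prop :=
  IsCore (X.induce S) ∧ Nonempty (X →g X.induce S)

/-- distance-regular: connected, and for vertices `u, v` at distance `i` the vertex `v` has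
exactly `c i` neighbours at distance `i - 1` from `u` and `b i` at distance `i + 1` -/
def IsDistanceRegular {V : Type} (X : SimpleGraph V) : Prop :=
  X.Connected ∧ ∃ b c : ℕ → ℕ, ∀ u v : V,
    {w | X.Adj v w ∧ X.dist u w + 1 = X.dist u v}.ncard = c (X.dist u v) ∧
    {w | X.Adj v w ∧ X.dist u w = X.dist u v + 1}.ncard = b (X.dist u v)

/-! ### every finite graph has a core -/

theorem isCore_of_surj {V : Type} [Finite V] (X : SimpleGraph V)
    (h : ∀ f : X →g X, Function.Surjective f) : IsCore X := by
  intro f
  have hb : Function.Bijective f := (h f).bijective_of_finite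
  let p : Equiv.Perm V := Equiv.ofBijective f hb
  have hp : ∀ v, p v = f v := fun _ => rfl
  have hpow : ∀ (n : ℕ) (u v : V), X.Adj u v → X.Adj ((p ^ n) u) ((p ^ n) v) := by
    intro n
    induction n with
    | zero => intro u v h; simpa using h
    | succ n ih =>
      intro u v h
      rw [pow_succ']
      exact f.map_adj (ih u v h)
  refine ⟨⟨p, ?_⟩, fun v => rfl⟩
  intro u v
  constructor
  · intro huv
    have ho : 0 < orderOf p := orderOf_pos p
    obtain ⟨m, hm⟩ : ∃ m, orderOf p = m + 1 := ⟨orderOf p - 1, by omega⟩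
    have h1 : p ^ (m + 1) = 1 := hm ▸ pow_orderOf_eq_one p
    have := hpow m _ _ huv
    rw [← Equiv.Perm.mul_apply, ← Equiv.Perm.mul_apply, ← pow_succ, h1] at this
    simpa using this
  · intro huv
    exact f.map_adj huv

theorem exists_core {V : Type} [Finite V] (X : SimpleGraph V) : ∃ S, IsCoreOf X S := by
  classical
  have hex : ∃ n, ∃ S : Set V, S.ncard = n ∧ Nonempty (X →g X.induce S) :=
    ⟨_, Set.univ, rfl, ⟨⟨fun v => ⟨v, trivial⟩, fun h => h⟩⟩⟩
  obtain ⟨S, hS, ⟨g⟩⟩ := Nat.find_spec hex
  refine ⟨S, isCore_of_surj _ ?_, ⟨g⟩⟩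
  intro f
  by_contra hns
  let T : Set V := {v | ∃ x : S, (f x : V) = v}
  have hTS : T ⊂ S := by
    constructor
    · rintro v ⟨x, rfl⟩
      exact (f x).2
    · intro hST
      apply hns
      intro y
      obtain ⟨x, hx⟩ := hST y.2
      exact ⟨x, Subtype.ext hx⟩
  have hlt : T.ncard < S.ncard := Set.ncard_lt_ncard hTS (Set.toFinite _)
  refine Nat.find_min hex (hS ▸ hlt) ⟨T, rfl, ⟨⟨fun v => ⟨f (g v), g v, rfl⟩, ?_⟩⟩⟩
  intro u v huv
  exact f.map_adj (g.map_adj huv)

/-! ### the Doob graph: Cartesian square of the Shrikhande graph -/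

abbrev A := ZMod 4 × ZMod 4

abbrev W := A × A

/-- connection set of the Shrikhande graph -/
def sh (a : A) : Bool :=
  a = (1, 0) || a = (3, 0) || a = (0, 1) || a = (0, 3) || a = (1, 1) || a = (3, 3)

def gen (z : W) : Bool := (z.2 = 0 && sh z.1) || (z.1 = 0 && sh z.2)

def d1 (a : A) : ℕ := if a = 0 then 0 else if sh a then 1 else 2

def D (z : W) : ℕ := d1 z.1 + d1 z.2

theorem gen_neg : ∀ z : W, gen z = true → gen (-z) = true := by decide +kernel

theorem gen_zero : gen 0 = false := by decide +kernel

def X : SimpleGraph W where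
  Adj u v := gen (v - u) = true
  symm := ⟨fun u v h => by
    have := gen_neg _ h
    rwa [neg_sub] at this⟩
  loopless := ⟨fun u h => by
    rw [sub_self, gen_zero] at h
    exact absurd h (by decide)⟩

theorem D_step : ∀ s : W, gen s = true → ∀ z : W, D (s + z) ≤ D z + 1 := by decide +kernel

theorem D_back : ∀ z : W, z = 0 ∨ ∃ s : W, gen s = true ∧ D (z - s) + 1 = D z := by
  decide +kernel

theorem hdist (u v : W) : X.Reachable u v ∧ X.dist u v = D (v - u) := by
  refine Pool.Agent.Lib.helper6.dist_eq_of_cert X (fun u v => D (v - u)) ?_ ?_ ?_ u v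
  · intro u
    rw [sub_self]
    decide
  · intro u v w h
    have := D_step _ h (v - u)
    rwa [sub_add_sub_cancel] at this
  · intro u v
    rcases D_back (v - u) with h | ⟨s, hs, hd⟩
    · left
      exact (sub_eq_zero.mp h).symm
    · right
      refine ⟨v - s, ?_, ?_⟩
      · show gen (v - (v - s)) = true
        rwa [sub_sub_cancel]
      · rwa [sub_right_comm]

theorem count_c : ∀ z : W,
    (Finset.univ.filter (fun s : W => gen s = true ∧ D (s + z) + 1 = D z)).card = D z := by
  decide +kernel

theorem count_b : ∀ z : W,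
    (Finset.univ.filter (fun s : W => gen s = true ∧ D (s + z) = D z + 1)).card
      = 3 * (4 - D z) := by
  decide +kernel

theorem ncard_shift (P : W → Prop) [DecidablePred P] (v : W) :
    {w | P (w - v)}.ncard = (Finset.univ.filter P).card := by
  rw [← Set.ncard_coe_finset]
  refine Set.ncard_congr (fun w _ => w - v) ?_ ?_ ?_
  · intro w hw
    simpa using hw
  · intro a b _ _ h
    exact sub_left_injective h
  · intro s hs
    refine ⟨s + v, ?_, by simp⟩
    simpa using hs

theorem drg : IsDistanceRegular X := by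
  refine ⟨⟨fun u v => (hdist u v).1⟩, fun i => 3 * (4 - i), fun i => i, fun u v => ⟨?_, ?_⟩⟩
  · simp only [(hdist _ _).2]
    refine Eq.trans ?_ (count_c (v - u))
    rw [← ncard_shift _ v]
    congr 1
    ext w
    simp only [Set.mem_ofPred_eq, sub_add_sub_cancel]
    rfl
  · simp only [(hdist _ _).2]
    rw [← count_b (v - u), ← ncard_shift _ v]
    congr 1
    ext w
    simp only [Set.mem_ofPred_eq, sub_add_sub_cancel]
    rfl

theorem gen_fold : ∀ z : W, gen z = true → gen (z.1 + z.2, 0) = true := by decide +kernel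

/-- the folding endomorphism `(x, y) ↦ (x + y, 0)` -/
def fold : X →g X where
  toFun z := (z.1 + z.2, 0)
  map_rel' := by
    intro u v h
    have := gen_fold _ h
    show gen _ = true
    convert this using 2
    ext <;> simp <;> ring

theorem noK4 : ∀ a : W, gen a = true → ∀ b : W, gen b = true → gen (b - a) = true →
    ∀ c : W, gen c = true → gen (c - a) = true → gen (c - b) = true → False := by
  decide +kernel

theorem noK4' (p a b c : W) (h1 : X.Adj p a) (h2 : X.Adj p b) (h3 : X.Adj a b) (h4 : X.Adj p c)
    (h5 : X.Adj a c) (h6 : X.Adj b c) : False := by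
  refine noK4 (a - p) h1 (b - p) h2 ?_ (c - p) h4 ?_ ?_
  · rw [sub_sub_sub_cancel_right]; exact h3
  · rw [sub_sub_sub_cancel_right]; exact h5
  · rw [sub_sub_sub_cancel_right]; exact h6

/-- There is a finite distance-regular graph that has a core, and whose core is neither isomorphic
to the graph nor a complete graph. -/
theorem result : ∃ (V : Type) (_ : Finite V) (X : SimpleGraph V), IsDistanceRegular X ∧
    (∃ S, IsCoreOf X S) ∧
    ∀ S, IsCoreOf X S → ¬ Nonempty (X ≃g X.induce S) ∧ X.induce S ≠ ⊤ := by
  refine ⟨W, inferInstance, X, drg, exists_core X, fun S ⟨hc, ⟨g⟩⟩ => ⟨?_, ?_⟩⟩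
  · rintro ⟨e⟩
    obtain ⟨e', he'⟩ := hc ((e.toHom.comp fold).comp e.symm.toHom)
    have h1 := he' (e (((1, 0), (0, 0)) : W))
    have h2 := he' (e (((0, 0), (1, 0)) : W))
    simp only [SimpleGraph.Hom.coe_comp, Function.comp,
      RelEmbedding.coe_toRelHom, RelIso.coe_toRelEmbedding, RelIso.symm_apply_apply] at h1 h2
    have h3 : fold (((1, 0), (0, 0)) : W) = fold (((0, 0), (1, 0)) : W) := by
      show (_, _) = (_, _)
      decide
    have h4 := e.injective (e'.injective (h1.trans (h3 ▸ h2.symm)))
    exact absurd h4 (by decide)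
  · intro htop
    have hadj : ∀ x y : S, x ≠ y → X.Adj x y := by
      intro x y hxy
      have : (X.induce S).Adj x y := by rw [htop]; exact hxy
      exact this
    have key : ∀ p a b c : W, X.Adj p a → X.Adj p b → X.Adj a b → X.Adj a c → X.Adj b c →
        g p = g c := by
      intro p a b c h1 h2 h3 h5 h6
      by_contra hne
      exact noK4' (g p) (g a) (g b) (g c) (g.map_adj h1) (g.map_adj h2) (g.map_adj h3)
        (hadj _ _ hne) (g.map_adj h5) (g.map_adj h6)
    have k1 := key ((0, 0), (0, 0)) ((1, 0), (0, 0)) ((1, 1), (0, 0)) ((2, 1), (0, 0))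
      (by show gen _ = true; decide) (by show gen _ = true; decide) (by show gen _ = true; decide)
      (by show gen _ = true; decide) (by show gen _ = true; decide)
    have k2 := key ((2, 1), (0, 0)) ((2, 2), (0, 0)) ((3, 2), (0, 0)) ((3, 3), (0, 0))
      (by show gen _ = true; decide) (by show gen _ = true; decide) (by show gen _ = true; decide)
      (by show gen _ = true; decide) (by show gen _ = true; decide)
    have k3 : X.Adj ((0, 0), (0, 0)) ((3, 3), (0, 0)) := by show gen _ = true; decide
    have k4 := g.map_adj k3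
    rw [k1, k2] at k4
    exact (X.induce S).irrefl k4

end Pool.Agent.Results.MP_06b6d5_co.Doob
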